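import Pool.Agent.helper88.PF.Spec

set_option linter.unusedVariables false

namespace PF

noncomputable section

/-- the image of a closed set -/
def BVM_im {α β β' : Po} (h : β → β') (D : Set (α × β)) : Set (α × β') :=
  {p | ∃ v, (p.1, v) ∈ D ∧ p.2 ≤ h v}

theorem BVM_im_mono {α β β' : Po} (h : β → β') {D D' : Set (α × β)} (hD : D ⊆ D') :
    BVM_im h D ⊆ BVM_im h D' := by
  rintro p ⟨v, h1, h2⟩
  exact ⟨v, hD h1, h2⟩

theorem BVM_cl {α β β' : Po} (h : β → β') (hm : Monotone h) (D : Set (α × β))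
    (θ : α → β → Prop) (θ' : α → β' → Prop) (hθ : ∀ u v, θ u v → θ' u (h v)) (hD : Cl D θ) :
    Cl (BVM_im h D) θ' := by
  obtain ⟨h1, h2, h3⟩ := hD
  refine ⟨⟨⊥, h1, bot_le⟩, ?_, ?_⟩
  · rintro u u' v huu ⟨w, hw, hv⟩
    exact ⟨w, h2 u u' w huu hw, hv⟩
  · rintro u v ⟨w, hw, hv⟩
    obtain ⟨w', hww, hw', hθw⟩ := h3 u w hw
    exact ⟨h w', hv.trans (hm hww), ⟨w', hw', le_rfl⟩, hθ u w' hθw⟩

theorem BVM : BVM_stmt := by
  intro Γ π
  induction π with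
  | one α K =>
    intro β β' h Θ Θ' hm hΘ hV
    obtain ⟨D, hD⟩ := hV
    exact ⟨BVM_im h D, BVM_cl h hm D _ _ (fun u v huv hK => hΘ u v (huv hK)) hD⟩
  | snoc π β₀ α ih =>
    intro β β' h Θ Θ' hm hΘ hV
    refine ih (β₀.prod (α.prod β).set) (β₀.prod (α.prod β').set)
      (fun t => (t.1, BVM_im h t.2)) _ _ ?_ ?_ hV
    · intro s t hst
      exact ⟨hst.1, BVM_im_mono h hst.2⟩
    · intro γ t ht
      exact BVM_cl h hm t.2 _ _ (fun u v huv => hΘ _ v huv) ht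

end

end PF
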