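import Pool.Agent.helper88.PF.Spec

set_option linter.unusedVariables false

namespace PF

noncomputable section

theorem CR2_ev (t : Tm) (s s' : ℕ → Prop) (h : ∀ i, t.Occ i → (s i ↔ s' i)) :
    t.ev s ↔ t.ev s' := by
  induction t with
  | var i => exact h i rfl
  | bot => exact Iff.rfl
  | top => exact Iff.rfl
  | sup a b iha ihb =>
    have ha := iha (fun i hi => h i (Or.inl hi))
    have hb := ihb (fun i hi => h i (Or.inr hi))
    show (a.ev s ∨ b.ev s) ↔ (a.ev s' ∨ b.ev s')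
    rw [ha, hb]
  | inf a b iha ihb =>
    have ha := iha (fun i hi => h i (Or.inl hi))
    have hb := ihb (fun i hi => h i (Or.inr hi))
    show (a.ev s ∧ b.ev s) ↔ (a.ev s' ∧ b.ev s')
    rw [ha, hb]

theorem CR2_eqAt (a : Tm × Tm) (s s' : ℕ → Prop)
    (h : ∀ i, a.1.Occ i ∨ a.2.Occ i → (s i ↔ s' i)) : eqAt s a ↔ eqAt s' a := by
  unfold eqAt
  rw [CR2_ev a.1 s s' (fun i hi => h i (Or.inl hi)), CR2_ev a.2 s s' (fun i hi => h i (Or.inr hi))]

theorem CR2_Qm (q : List Bool) (M M' : (ℕ → List Prop) → Prop) (h : ∀ c, M c → M' c) :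
    ∀ c, Qm q M c → Qm q M' c := by
  induction q with
  | nil => exact h
  | cons b q ih =>
    cases b with
    | true => exact fun c hc x hx => ih _ (hc x hx)
    | false =>
      rintro c ⟨x, hx, hc⟩
      exact ⟨x, hx, ih _ hc⟩

theorem CR2_fex (n : ℕ) (P : Fin n → ℕ → Prop) (h : ∀ l, ComputablePred (P l)) :
    ComputablePred (fun p => ∃ l, P l p) := by
  induction n with
  | zero =>
    refine (cp_const False).of_eq (fun p => ?_)
    constructor
    · exact False.elim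
    · rintro ⟨l, -⟩
      exact l.elim0
  | succ n ih =>
    have h1 := ih (fun l => P l.succ) (fun l => h l.succ)
    refine (cp_or (h 0) h1).of_eq (fun p => ?_)
    rw [Fin.exists_fin_succ]

theorem CR2_stt (r M m : ℕ) (ζ ζ' x x' τ : ℕ → Prop) (b : List Prop) (hζ : ∀ k < r, (ζ k ↔ ζ' k))
    (hx : ∀ k < m, (x k ↔ x' k)) (i : ℕ) :
    stt r M m ζ b x τ i ↔ stt r M m ζ' b x' τ i := by
  unfold stt
  split_ifs with h1 h2 h3
  · exact hζ i h1
  · exact Iff.rfl
  · exact hx _ (by omega)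
  · exact Iff.rfl

theorem CR2_stt2 (r M m : ℕ) (ζ ζ' x x' τ τ' : ℕ → Prop) (b b' : List Prop)
    (hζ : ∀ k < r, (ζ k ↔ ζ' k)) (hx : ∀ k < m, (x k ↔ x' k)) (i : ℕ)
    (hi : i < r ∨ (r + M ≤ i ∧ i < r + M + m)) :
    stt r M m ζ b x τ i ↔ stt r M m ζ' b' x' τ' i := by
  unfold stt
  split_ifs with h1 h2 h3
  · exact hζ i h1
  · omega
  · exact hx _ (by omega)
  · omega

theorem CR2_core (hACL : ACL_stmt) (m M r : ℕ) (cl : List Cla) (J : ℕ → Prop) (τ : ℕ → Prop)
    (hS : Sens m M r cl) (n : ℕ) (hn : 0 < n)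
    (lams : Fin n → ℕ → ℕ)
    (hlam : ∀ a : Fin cl.length → ℕ, (∀ i, a i ≤ (cl.get i).2.length) →
      ∃ l : Fin n, ∀ i : Fin cl.length, lams l i = a i)
    (X : ℕ → Po.bits (m + cl.length * r)) (hX : CE X)
    (hK : AE (fun p => KJ m M r cl J (bx (X p))))
    (c : ℕ → List Prop)
    (hM : ∀ z : ℕ → Po.bits r, CE z → ClsAE cl (fun p => stt r M m (bx (z p)) (c p)
       (bx (K := m) (fun i => bx (X p) i)) τ)) :
    ∃ l : Fin n, ∀ R : ℕ → Prop, ComputablePred R → {k | R k}.Infinite →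
      ∀ (X₀ : Po.bits (m + cl.length * r)) (c₀ : List Prop),
      (∀ k, R k → X (k * n + l) = X₀ ∧ c (k * n + l) = c₀) →
        Th m M r cl J (lams l) τ (bx X₀) c₀ := by
  classical
  obtain ⟨-, -, -, -, -, hA6, hA7⟩ := hACL
  by_contra hcon
  push Not at hcon
  choose R hRc hRi X₀ c₀ hXc hTh using hcon
  have h1 : ∀ l : Fin n, ∃ (i : ℕ) (d : Cla) (ζ : ℕ → Prop), cl[i]? = some d ∧ J i ∧
     (∀ h ∈ d.1, eqAt (stt r M m ζ (c₀ l) (bx (X₀ l)) τ) h) ∧
     ∀ a, d.2[lams l i]? = some a → ¬ eqAt (stt r M m ζ (c₀ l) (bx (X₀ l)) τ) a := by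
    intro l
    by_contra hcon2
    apply hTh l
    intro i d hd hJ ζ hζ
    by_contra hcon3
    exact hcon2 ⟨i, d, ζ, hd, hJ, hζ, fun a ha hea => hcon3 ⟨a, ha, hea⟩⟩
  choose j d ζ hd hJ hζ hnot using h1
  have hjlt : ∀ l, j l < cl.length := fun l => (List.getElem?_eq_some_iff.1 (hd l)).1
  obtain ⟨i₀, hi₀⟩ : ∃ i₀ : Fin cl.length, ∀ a, a ≤ (cl.get i₀).2.length →
      ∃ l, j l = i₀ ∧ lams l i₀ = a := by
    by_contra hcon4
    push Not at hcon4
    choose a ha hal using hcon4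
    obtain ⟨l, hl⟩ := hlam a ha
    exact hal ⟨j l, hjlt l⟩ l rfl (hl ⟨j l, hjlt l⟩)
  -- the clause
  have hcl : cl[(i₀ : ℕ)]? = some (cl.get i₀) := by
    simp
  have hdl : ∀ l, j l = i₀ → d l = cl.get i₀ := by
    intro l hl
    have := hd l
    rw [hl, hcl] at this
    exact (Option.some.inj this).symm
  have hJ0 : J i₀ := by
    obtain ⟨l, hl, -⟩ := hi₀ 0 (Nat.zero_le _)
    rw [← hl]
    exact hJ l
  have hmod : Computable (fun p : ℕ => p % n) :=
    (Primrec.nat_mod.comp Primrec.id (Primrec.const n)).to_comp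
  have hdiv : Computable (fun p : ℕ => p / n) :=
    (Primrec.nat_div.comp Primrec.id (Primrec.const n)).to_comp
  let S : ℕ → Prop := fun p => ∃ l : Fin n, p % n = l ∧ j l = i₀ ∧ R l (p / n)
  have hSc : ComputablePred S := by
    refine CR2_fex n (fun l p => p % n = l ∧ j l = i₀ ∧ R l (p / n)) (fun l => ?_)
    exact cp_and (cp_eq hmod (Computable.const _)) (cp_and (cp_const _) (cp_comp hdiv (hRc l)))
  let zj : ℕ → Po.bits r := fun p k => bx (X p) (m + i₀ * r + k)
  let z : ℕ → Po.bits r := fun p k =>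
    (∃ l : Fin n, p % n = l ∧ j l = i₀ ∧ R l (p / n) ∧ ζ l k) ∨ (¬ S p ∧ zj p k)
  have hz : CE z := by
    refine (hA7 Prop r z).2 (fun k => (hA6 _).2 ?_)
    refine re_or ?_ (re_and (cp_not hSc).to_re ?_)
    · refine (CR2_fex n (fun l p => p % n = l ∧ j l = i₀ ∧ R l (p / n) ∧ ζ l k) (fun l => ?_)).to_re
      exact cp_and (cp_eq hmod (Computable.const _)) (cp_and (cp_const _)
        (cp_and (cp_comp hdiv (hRc l)) (cp_const _)))
    · have hlt : m + (i₀ : ℕ) * r + (k : ℕ) < m + cl.length * r := by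
        have h2 : (i₀ : ℕ) * r + r ≤ cl.length * r := by
          have := Nat.mul_le_mul_right r (Nat.succ_le_of_lt i₀.2)
          rw [Nat.succ_mul] at this
          exact this
        have := k.2
        omega
      have h3 := (hA6 _).1 ((hA7 Prop _ X).1 hX ⟨_, hlt⟩)
      refine h3.of_eq (fun p => ?_)
      exact ⟨fun h => ⟨hlt, h⟩, fun h => h.2⟩
  have hz1 : ∀ p (l : Fin n), p % n = l → j l = i₀ → R l (p / n) → ∀ k : Fin r, (z p k ↔ ζ l k) := by
    intro p l h1 h2 h3 k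
    constructor
    · rintro (⟨l', h4, h5, h6, h7⟩ | ⟨h4, -⟩)
      · have : l' = l := Fin.ext (h4.symm.trans h1)
        rw [← this]
        exact h7
      · exact absurd ⟨l, h1, h2, h3⟩ h4
    · intro h4
      exact Or.inl ⟨l, h1, h2, h3, h4⟩
  have hz2 : ∀ p, ¬ S p → ∀ k : Fin r, (z p k ↔ zj p k) := by
    intro p hp k
    constructor
    · rintro (⟨l', h4, h5, h6, h7⟩ | ⟨-, h4⟩)
      · exact absurd ⟨l', h4, h5, h6⟩ hp
      · exact h4
    · intro h4
      exact Or.inr ⟨hp, h4⟩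
  have hst : ∀ p (l : Fin n), p % n = l → j l = i₀ → R l (p / n) → ∀ a : Tm × Tm,
      (eqAt (stt r M m (bx (z p)) (c p) (bx (K := m) (fun i => bx (X p) i)) τ) a ↔
        eqAt (stt r M m (ζ l) (c₀ l) (bx (X₀ l)) τ) a) := by
    intro p l h1 h2 h3 a
    have hp : p / n * n + l = p := by
      rw [← h1]
      exact Nat.div_add_mod' p n
    obtain ⟨h4, h5⟩ := hXc l (p / n) h3
    rw [hp] at h4 h5
    rw [h4, h5]
    refine CR2_eqAt a _ _ (fun i _ => ?_)
    refine CR2_stt r M m _ _ _ _ τ _ ?_ ?_ i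
    · intro k hk
      constructor
      · rintro ⟨h6, h7⟩
        exact (hz1 p l h1 h2 h3 ⟨k, h6⟩).1 h7
      · intro h6
        exact ⟨hk, (hz1 p l h1 h2 h3 ⟨k, hk⟩).2 h6⟩
    · intro k hk
      constructor
      · rintro ⟨h6, h7⟩
        exact h7
      · intro h6
        exact ⟨hk, h6⟩
  have hmem : cl.get i₀ ∈ cl := List.get_mem _ _
  obtain ⟨a, ha, haE⟩ := hM z hz (cl.get i₀) hmem (by
    intro h hh
    refine Set.Finite.subset hK (fun p hp hKp => hp ?_)
    by_cases hSp : S p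
    · obtain ⟨l, h1, h2, h3⟩ := hSp
      refine (hst p l h1 h2 h3 h).2 (hζ l h ?_)
      rw [hdl l h2]
      exact hh
    · refine (CR2_eqAt h _ _ (fun i hi => ?_)).1 (hKp i₀ (cl.get i₀) hcl hJ0 h hh)
      have hi' := hS (cl.get i₀) hmem h hh i hi
      refine CR2_stt2 r M m _ _ _ _ _ _ _ _ ?_ ?_ i hi'
      · intro k hk
        constructor
        · intro h6
          exact ⟨hk, (hz2 p hSp ⟨k, hk⟩).2 h6⟩
        · rintro ⟨h6, h7⟩
          exact (hz2 p hSp ⟨k, h6⟩).1 h7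
      · intro k hk
        constructor
        · intro h6
          exact ⟨hk, h6⟩
        · rintro ⟨h6, h7⟩
          exact h7)
  obtain ⟨k, hk, hka⟩ := List.getElem_of_mem ha
  obtain ⟨l, hl1, hl2⟩ := hi₀ k hk.le
  have hinf : Set.Infinite ((fun k' => k' * n + (l : ℕ)) '' {k' | R l k'}) := by
    refine Set.Infinite.image ?_ (hRi l)
    intro x _ y _ hxy
    have h2 : x * n = y * n := by
      have : x * n + (l : ℕ) = y * n + l := hxy
      omega
    exact Nat.eq_of_mul_eq_mul_right hn h2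
  refine hinf (Set.Finite.subset haE ?_)
  rintro p ⟨k', hk', rfl⟩
  show ¬ _
  have hmodp : (k' * n + (l : ℕ)) % n = l := by
    rw [Nat.add_comm, Nat.add_mul_mod_self_right, Nat.mod_eq_of_lt l.2]
  have hdivp : (k' * n + (l : ℕ)) / n = k' := by
    rw [Nat.add_comm, Nat.add_mul_div_right _ _ hn, Nat.div_eq_of_lt l.2, Nat.zero_add]
  intro hcontra
  have h8 := (hst (k' * n + l) l hmodp hl1 (by rw [hdivp]; exact hk') a).1 hcontra
  refine hnot l a ?_ h8
  rw [hl1, hl2, hdl l hl1, ← hka]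
  exact List.getElem?_eq_getElem hk

theorem CR2 (hACL : ACL_stmt) (hBTM : BTM_stmt) (hBWE : BWE_stmt) (hCPR : CPR_stmt)
    (hCBR : CBR_stmt) : CR2_stmt := by
  intro m q r cl τ hS hSm J
  classical
  let F := (i : Fin cl.length) → Fin ((cl.get i).2.length + 1)
  let n := Fintype.card F
  let e : Fin n ≃ F := (Fintype.equivFin F).symm
  let lams : Fin n → ℕ → ℕ := fun l i => if h : i < cl.length then (e l ⟨i, h⟩ : ℕ) else 0
  have hn : 0 < n := Fintype.card_pos
  have hlam : ∀ a : Fin cl.length → ℕ, (∀ i, a i ≤ (cl.get i).2.length) →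
      ∃ l : Fin n, ∀ i : Fin cl.length, lams l i = a i := by
    intro a ha
    refine ⟨e.symm (fun i => ⟨a i, Nat.lt_succ_of_le (ha i)⟩), fun i => ?_⟩
    show (if h : (i : ℕ) < cl.length then _ else 0) = a i
    rw [dif_pos i.2]
    rw [Equiv.apply_symm_apply]
  let Mt : Fin n → (ℕ → CT (Po.bits (m + cl.length * r)) q) → Prop := fun l γ =>
    ∃ y : ℕ → Po.one, CE y ∧ Wk (fun p => (γ p, y p))
      (fun s => Th m q.length r cl J (lams l) τ (bx (rdx q s.1)) (rdb q s.1))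
  have key : Tr (mkP (Po.bits (m + cl.length * r)) (fun x => KJ m q.length r cl J (bx x)) q)
      (fun γ => ∃ l : Fin n, Mt l (fun p => γ (p * n + l))) := by
    refine hBTM _ _ (fun γ => ∃ l : Fin n, ∀ R : ℕ → Prop, ComputablePred R →
      {k | R k}.Infinite → ∀ (X₀ : Po.bits (m + cl.length * r)) (c₀ : List Prop),
      (∀ k, R k → rdx q (γ (k * n + l)) = X₀ ∧ rdb q (γ (k * n + l)) = c₀) →
        Th m q.length r cl J (lams l) τ (bx X₀) c₀) _ ?_ ?_
    · rintro γ hγ ⟨l, hl⟩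
      refine ⟨l, fun _ => (), hACL.1 _ _, ?_⟩
      intro R hR hRi σ hσ
      refine hl R hR hRi _ _ (fun k hk => ?_)
      have := hσ k hk
      rw [← this]
      exact ⟨rfl, rfl⟩
    · refine (hCBR _ _ q (fun X c => ∃ l : Fin n, ∀ R : ℕ → Prop, ComputablePred R →
        {k | R k}.Infinite → ∀ (X₀ : Po.bits (m + cl.length * r)) (c₀ : List Prop),
        (∀ k, R k → X (k * n + l) = X₀ ∧ c (k * n + l) = c₀) →
          Th m q.length r cl J (lams l) τ (bx X₀) c₀)).2 ?_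
      intro X hX hK
      have hx : CE (fun p => ((fun i : Fin m => bx (X p) i) : Po.bits m)) := by
        have h7 := hACL.2.2.2.2.2.2
        have h6 := hACL.2.2.2.2.2.1
        refine (h7 Prop m _).2 (fun i => (h6 _).2 ?_)
        have hlt : (i : ℕ) < m + cl.length * r := by
          have := i.2
          omega
        have h3 := (h6 _).1 ((h7 Prop _ X).1 hX ⟨_, hlt⟩)
        refine h3.of_eq (fun p => ?_)
        exact ⟨fun h => ⟨hlt, h⟩, fun h => h.2⟩
      refine CR2_Qm _ _ _ ?_ _ (hSm _ hx)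
      intro c hc
      exact CR2_core hACL m q.length r cl J τ hS n hn lams hlam X hX hK c hc
  obtain ⟨l, hl⟩ := hCPR n _ _ Mt hn key
  exact ⟨lams l, hBWE _ _ Po.one _ hl⟩

end

end PF
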